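import Pool.Agent.Y912.IS.Lyap
import Pool.Agent.Results.MP_44d715_an.CoerciveISS

set_option autoImplicit false
set_option linter.unusedSectionVars false

namespace Y912.IS.Heat

open MeasureTheory Set Filter Topology
open Pool.Agent.Results.MP_44d715_an


/-! ### the semigroup in coordinates -/

theorem S_lin (t : ℝ) : ∀ x y : CoerciveISS.E, CoerciveISS.S CoerciveISS.lk (max t 0) (x + y) =
    CoerciveISS.S CoerciveISS.lk (max t 0) x + CoerciveISS.S CoerciveISS.lk (max t 0) y := by
  intro x y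
  ext k
  rw [CoerciveISS.S_apply CoerciveISS.par.hl (le_max_right _ _), lp.coeFn_add, lp.coeFn_add,
    Pi.add_apply, Pi.add_apply, CoerciveISS.S_apply CoerciveISS.par.hl (le_max_right _ _),
    CoerciveISS.S_apply CoerciveISS.par.hl (le_max_right _ _)]
  ring

theorem S_smul (t : ℝ) : ∀ (c : ℝ) (x : CoerciveISS.E), CoerciveISS.S CoerciveISS.lk (max t 0) (c • x) =
    c • CoerciveISS.S CoerciveISS.lk (max t 0) x := by
  intro c x
  ext k
  rw [CoerciveISS.S_apply CoerciveISS.par.hl (le_max_right _ _), lp.coeFn_smul, lp.coeFn_smul,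
    Pi.smul_apply, Pi.smul_apply, CoerciveISS.S_apply CoerciveISS.par.hl (le_max_right _ _)]
  simp only [smul_eq_mul]
  ring

/-- the heat semigroup as a family of bounded operators -/
noncomputable def heatS (t : ℝ) : CoerciveISS.X →L[ℝ] CoerciveISS.X :=
  LinearMap.mkContinuous
    { toFun := fun x => CoerciveISS.sineBasis.repr.symm
        (CoerciveISS.S CoerciveISS.lk (max t 0) (CoerciveISS.sineBasis.repr x))
      map_add' := fun x y => by rw [map_add, S_lin, map_add]
      map_smul' := fun c x => by rw [map_smul, S_smul, map_smul, RingHom.id_apply] }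
    1 (by
      intro x
      simp only [LinearMap.coe_mk, AddHom.coe_mk, LinearIsometryEquiv.norm_map, one_mul]
      refine (CoerciveISS.S_norm CoerciveISS.par.hl (le_max_right _ _) _).trans ?_
      rw [LinearIsometryEquiv.norm_map]
      apply mul_le_of_le_one_left (norm_nonneg _)
      apply Real.exp_le_one_iff.2
      have := le_max_right t 0
      linarith)

theorem heatS_repr {t : ℝ} (ht : 0 ≤ t) (x : CoerciveISS.X) :
    CoerciveISS.sineBasis.repr (heatS t x) = CoerciveISS.S CoerciveISS.lk t (CoerciveISS.sineBasis.repr x) := by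
  rw [heatS, LinearMap.mkContinuous_apply]
  simp only [LinearMap.coe_mk, AddHom.coe_mk, LinearIsometryEquiv.apply_symm_apply]
  rw [max_eq_left ht]

theorem heatS_eq {t : ℝ} (ht : 0 ≤ t) (x : CoerciveISS.X) : heatS t x = CoerciveISS.heatSemigroup t x := by
  apply CoerciveISS.sineBasis.repr.injective
  rw [heatS_repr ht, CoerciveISS.heatSemigroup_repr ht]

theorem heatS_norm {t : ℝ} (ht : 0 ≤ t) : ‖heatS t‖ ≤ Real.exp (-t) := by
  apply ContinuousLinearMap.opNorm_le_bound _ (Real.exp_pos _).le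
  intro x
  rw [← LinearIsometryEquiv.norm_map CoerciveISS.sineBasis.repr (heatS t x), heatS_repr ht]
  refine (CoerciveISS.S_norm CoerciveISS.par.hl ht _).trans ?_
  rw [LinearIsometryEquiv.norm_map]

theorem S_cont (x : CoerciveISS.E) : ContinuousOn (fun t => CoerciveISS.S CoerciveISS.lk t x) (Ici 0) := by
  intro t₀ ht₀
  have ht₀' : 0 ≤ t₀ := mem_Ici.1 ht₀
  have h1 : Tendsto (fun t => ∑' k, (CoerciveISS.S CoerciveISS.lk t x k - CoerciveISS.S CoerciveISS.lk t₀ x k) ^ 2)
      (𝓝[Ici 0] t₀) (𝓝 (∑' _k : ℕ, (0:ℝ))) := by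
    apply tendsto_tsum_of_dominated_convergence (bound := fun k => (x k) ^ 2)
      (CoerciveISS.E_summable x)
    · intro k
      have h2 : Tendsto (fun t : ℝ => (Real.exp (-(CoerciveISS.lk k * t)) * x k -
          Real.exp (-(CoerciveISS.lk k * t₀)) * x k) ^ 2) (𝓝[Ici 0] t₀) (𝓝 0) := by
        have h3 : Continuous (fun t : ℝ => (Real.exp (-(CoerciveISS.lk k * t)) * x k -
          Real.exp (-(CoerciveISS.lk k * t₀)) * x k) ^ 2) := by fun_prop
        have h4 := (h3.tendsto t₀).mono_left (nhdsWithin_le_nhds (s := Ici 0))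
        simpa using h4
      refine h2.congr' ?_
      filter_upwards [self_mem_nhdsWithin] with t ht
      rw [CoerciveISS.S_apply CoerciveISS.par.hl (mem_Ici.1 ht),
        CoerciveISS.S_apply CoerciveISS.par.hl ht₀']
    · filter_upwards [self_mem_nhdsWithin] with t ht k
      rw [CoerciveISS.S_apply CoerciveISS.par.hl (mem_Ici.1 ht),
        CoerciveISS.S_apply CoerciveISS.par.hl ht₀', Real.norm_eq_abs, abs_of_nonneg (sq_nonneg _)]
      have hb : ∀ s : ℝ, 0 ≤ s → 0 < Real.exp (-(CoerciveISS.lk k * s)) ∧ Real.exp (-(CoerciveISS.lk k * s)) ≤ 1 := by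
        intro s hs
        refine ⟨Real.exp_pos _, Real.exp_le_one_iff.2 ?_⟩
        have := mul_nonneg (zero_le_one.trans (CoerciveISS.par.hl k)) hs
        linarith
      obtain ⟨h5, h6⟩ := hb t (mem_Ici.1 ht)
      obtain ⟨h7, h8⟩ := hb t₀ ht₀'
      have e : (Real.exp (-(CoerciveISS.lk k * t)) * x k - Real.exp (-(CoerciveISS.lk k * t₀)) * x k) ^ 2 =
          (Real.exp (-(CoerciveISS.lk k * t)) - Real.exp (-(CoerciveISS.lk k * t₀))) ^ 2 * (x k) ^ 2 := by ring
      rw [e]
      apply mul_le_of_le_one_left (sq_nonneg _)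
      nlinarith
  rw [tsum_zero] at h1
  rw [ContinuousWithinAt, tendsto_iff_norm_sub_tendsto_zero]
  have h2 : Tendsto (fun t => √(∑' k, (CoerciveISS.S CoerciveISS.lk t x k - CoerciveISS.S CoerciveISS.lk t₀ x k) ^ 2))
      (𝓝[Ici 0] t₀) (𝓝 0) := by
    have := (Real.continuous_sqrt.tendsto 0).comp h1
    rwa [Real.sqrt_zero] at this
  refine h2.congr ?_
  intro t
  rw [← Real.sqrt_sq (norm_nonneg (CoerciveISS.S CoerciveISS.lk t x - CoerciveISS.S CoerciveISS.lk t₀ x)),
    CoerciveISS.E_norm_sq]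
  rfl

/-! ### the input map -/

open Classical in
/-- the input map of the heat equation -/
noncomputable def heatΦ (t : ℝ) (u : ℝ → ℝ) : CoerciveISS.X :=
  CoerciveISS.inputMap t (if h : IsInput u then MemLp.toLp u h else 0)

theorem exists_nice {u : ℝ → ℝ} (hu : IsInput u) : ∃ v : ℝ → ℝ, CoerciveISS.Nice v ∧
    ∀ᵐ s ∂(pos), u s = v s := by
  obtain ⟨v, hv, -, h⟩ := CoerciveISS.exists_rep (MemLp.toLp u hu)
  refine ⟨v, hv, ?_⟩
  filter_upwards [h, MemLp.coeFn_toLp hu] with s h1 h2
  rw [← h1, h2]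

theorem heatΦ_repr {t : ℝ} (ht : 0 ≤ t) {u v : ℝ → ℝ} (hu : IsInput u) (hv : CoerciveISS.Nice v)
    (h : ∀ᵐ s ∂(pos), u s = v s) :
    CoerciveISS.sineBasis.repr (heatΦ t u) = CoerciveISS.F CoerciveISS.lk CoerciveISS.bk t v := by
  rw [heatΦ, dif_pos hu]
  apply CoerciveISS.inputMap_repr ht _ hv
  filter_upwards [h, MemLp.coeFn_toLp hu] with s h1 h2
  rw [h2, h1]

theorem Fc_add {t : ℝ} {u v : ℝ → ℝ} (hu : CoerciveISS.Nice u) (hv : CoerciveISS.Nice v) (k : ℕ) :
    CoerciveISS.Fc CoerciveISS.lk CoerciveISS.bk t (fun s => u s + v s) k =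
      CoerciveISS.Fc CoerciveISS.lk CoerciveISS.bk t u k + CoerciveISS.Fc CoerciveISS.lk CoerciveISS.bk t v k := by
  simp only [CoerciveISS.Fc, mul_add]
  rw [intervalIntegral.integral_add, mul_add]
  · exact hu.intervalIntegrable (by fun_prop) _ _
  · exact hv.intervalIntegrable (by fun_prop) _ _

theorem Fc_smul {t : ℝ} (c : ℝ) (u : ℝ → ℝ) (k : ℕ) :
    CoerciveISS.Fc CoerciveISS.lk CoerciveISS.bk t (fun s => c * u s) k = c * CoerciveISS.Fc CoerciveISS.lk CoerciveISS.bk t u k := by
  simp only [CoerciveISS.Fc]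
  have : ∀ s, Real.exp (-(CoerciveISS.lk k * (t - s))) * (c * u s) = c * (Real.exp (-(CoerciveISS.lk k * (t - s))) * u s) :=
    fun s => by ring
  simp_rw [this]
  rw [intervalIntegral.integral_const_mul]
  ring

theorem nice_add {u v : ℝ → ℝ} (hu : CoerciveISS.Nice u) (hv : CoerciveISS.Nice v) :
    CoerciveISS.Nice (fun s => u s + v s) := by
  obtain ⟨M, hM⟩ := hu.bdd
  obtain ⟨M', hM'⟩ := hv.bdd
  exact ⟨hu.meas.add hv.meas, M + M', fun s => (abs_add_le _ _).trans (add_le_add (hM s) (hM' s))⟩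

theorem nice_smul {u : ℝ → ℝ} (hu : CoerciveISS.Nice u) (c : ℝ) :
    CoerciveISS.Nice (fun s => c * u s) := by
  obtain ⟨M, hM⟩ := hu.bdd
  refine ⟨hu.meas.const_mul c, |c| * M, fun s => ?_⟩
  rw [abs_mul]
  exact mul_le_mul_of_nonneg_left (hM s) (abs_nonneg c)

/-- The heat equation with Dirichlet boundary input as a control system. -/
noncomputable def heat : ControlSystem 8 CoerciveISS.X ℝ where
  S := heatS
  Φ := heatΦ
  S_zero := by
    ext1 x
    apply CoerciveISS.sineBasis.repr.injective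
    rw [heatS_repr le_rfl]
    ext k
    rw [CoerciveISS.S_apply CoerciveISS.par.hl le_rfl]
    simp
  S_add := by
    intro s t hs ht
    ext1 x
    apply CoerciveISS.sineBasis.repr.injective
    rw [ContinuousLinearMap.comp_apply, heatS_repr (by linarith), heatS_repr hs, heatS_repr ht]
    ext k
    rw [CoerciveISS.S_apply CoerciveISS.par.hl (by linarith),
      CoerciveISS.S_apply CoerciveISS.par.hl hs, CoerciveISS.S_apply CoerciveISS.par.hl ht,
      ← mul_assoc, ← Real.exp_add]
    congr 2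
    ring
  S_cont := by
    intro x
    have h1 := (CoerciveISS.sineBasis.repr.symm.continuous).comp_continuousOn
      (S_cont (CoerciveISS.sineBasis.repr x))
    refine h1.congr ?_
    intro t ht
    simp only [Function.comp]
    rw [← heatS_repr (mem_Ici.1 ht), LinearIsometryEquiv.symm_apply_apply]
  Φ_congr := by
    intro t u v ht hu hv h
    have h0 : ∀ᵐ s ∂(volume.restrict (Ioc (0:ℝ) t)), (MemLp.toLp u hu : ℝ → ℝ) s =
        (MemLp.toLp v hv : ℝ → ℝ) s := by
      have hsub : Ioc 0 t ⊆ Ioi (0:ℝ) := fun s hs => hs.1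
      filter_upwards [h, ae_mono (Measure.restrict_mono hsub le_rfl) (MemLp.coeFn_toLp hu),
        ae_mono (Measure.restrict_mono hsub le_rfl) (MemLp.coeFn_toLp hv)] with s h1 h2 h3
      rw [h2, h3, h1]
    unfold heatΦ
    rw [dif_pos hu, dif_pos hv, CoerciveISS.inputMap, CoerciveISS.inputMap]
    congr 1
    ext1 k
    congr 1
    rw [intervalIntegral.integral_of_le ht, intervalIntegral.integral_of_le ht]
    apply integral_congr_ae
    filter_upwards [h0] with s hs
    rw [hs]
  Φ_add := by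
    intro t u v ht hu hv
    obtain ⟨u', hu', h1⟩ := exists_nice hu
    obtain ⟨v', hv', h2⟩ := exists_nice hv
    apply CoerciveISS.sineBasis.repr.injective
    rw [map_add, heatΦ_repr ht hu hu' h1, heatΦ_repr ht hv hv' h2,
      heatΦ_repr ht (u := fun s => u s + v s) (MemLp.add hu hv) (nice_add hu' hv') (by
        filter_upwards [h1, h2] with s h3 h4
        rw [← h3, ← h4])]
    ext k
    rw [lp.coeFn_add, Pi.add_apply, CoerciveISS.F_apply CoerciveISS.par ht hu',
      CoerciveISS.F_apply CoerciveISS.par ht hv',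
      CoerciveISS.F_apply CoerciveISS.par ht (nice_add hu' hv'), Fc_add hu' hv']
  Φ_smul := by
    intro t c u ht hu
    obtain ⟨u', hu', h1⟩ := exists_nice hu
    apply CoerciveISS.sineBasis.repr.injective
    rw [map_smul, heatΦ_repr ht hu hu' h1, heatΦ_repr ht (hu.smul c) (nice_smul hu' c) (by
        filter_upwards [h1] with s h3
        rw [← h3]
        rfl)]
    ext k
    rw [lp.coeFn_smul, Pi.smul_apply, CoerciveISS.F_apply CoerciveISS.par ht hu',
      CoerciveISS.F_apply CoerciveISS.par ht (nice_smul hu' c), Fc_smul, smul_eq_mul]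
  Φ_cat := by
    intro t h u v ht hh hu hv
    obtain ⟨u', hu', h1⟩ := exists_nice hu
    obtain ⟨v', hv', h2⟩ := exists_nice hv
    have hc : ∀ᵐ s ∂(pos), cat h u v s = CoerciveISS.cat h u' v' s := by
      have h3 : ∀ᵐ s ∂(volume.restrict (Ioi h)), v (s - h) = v' (s - h) :=
        (pres h).quasiMeasurePreserving.ae h2
      rw [ae_restrict_iff' measurableSet_Ioi] at h3 h1 ⊢
      filter_upwards [h1, h3] with s h4 h5 hs
      simp only [cat, CoerciveISS.cat]
      split_ifs with hsh
      · exact h4 hs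
      · exact h5 (mem_Ioi.2 (not_le.1 hsh))
    apply CoerciveISS.sineBasis.repr.injective
    rw [map_add, heatΦ_repr (by linarith) (hu.cat hv hh) (hu'.cat hv' h) hc, heatS_repr ht,
      heatΦ_repr hh hu hu' h1, heatΦ_repr ht hv hv' h2]
    ext k
    rw [lp.coeFn_add, Pi.add_apply, CoerciveISS.F_apply CoerciveISS.par (by linarith) (hu'.cat hv' h),
      CoerciveISS.S_apply CoerciveISS.par.hl ht, CoerciveISS.F_apply CoerciveISS.par hh hu',
      CoerciveISS.F_apply CoerciveISS.par ht hv', CoerciveISS.Fc_cat hu' hv' hh ht]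
  Φ_bound := by
    intro t ht
    refine ⟨((∑' k, CoerciveISS.rk k) ^ 4) ^ (1 / 8 : ℝ), ?_⟩
    intro u hu
    obtain ⟨v, hv, h1⟩ := exists_nice hu
    have h2 := CoerciveISS.F_norm CoerciveISS.par ht hv
    rw [← heatΦ_repr ht hu hv h1, LinearIsometryEquiv.norm_map] at h2
    have hR : 0 ≤ (∑' k, CoerciveISS.rk k) ^ 4 := pow_nonneg (tsum_nonneg CoerciveISS.par.hr) 4
    have h3 : CoerciveISS.I8 t v ≤ ∫ s in (0:ℝ)..t, ‖u s‖ ^ (8:ℝ) := by
      rw [CoerciveISS.I8, intervalIntegral.integral_of_le ht, intervalIntegral.integral_of_le ht]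
      apply setIntegral_mono_ae_restrict
      · exact ((hv.pow 8).intervalIntegrable (by fun_prop) 0 t).1
      · have := (hu.integrable (p := 8) (by norm_num) (K := fun _ => (1:ℝ)) (by fun_prop) le_rfl ht).1
        simpa using this
      · have hsub : Ioc 0 t ⊆ Ioi (0:ℝ) := fun s hs => hs.1
        filter_upwards [ae_mono (Measure.restrict_mono hsub le_rfl) h1,
          ae_restrict_mem measurableSet_Ioc] with s hs hst
        rw [hs, Real.norm_eq_abs]
        have e1 : |v s| ^ (8:ℝ) = v s ^ 8 := by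
          have : |v s| ^ (8:ℝ) = |v s| ^ (8:ℕ) := by
            rw [← Real.rpow_natCast]
            norm_num
          rw [this, ← abs_pow, abs_of_nonneg (by positivity)]
        rw [e1]
        apply mul_le_of_le_one_left (by positivity)
        apply Real.exp_le_one_iff.2
        linarith [hst.2]
    have hI : 0 ≤ ∫ s in (0:ℝ)..t, ‖u s‖ ^ (8:ℝ) :=
      intervalIntegral.integral_nonneg ht fun s _ => by positivity
    have h4 : ‖heatΦ t u‖ ^ 8 ≤ (∑' k, CoerciveISS.rk k) ^ 4 * ∫ s in (0:ℝ)..t, ‖u s‖ ^ (8:ℝ) :=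
      h2.trans (mul_le_mul_of_nonneg_left h3 hR)
    have h5 := Real.rpow_le_rpow (by positivity) h4 (by norm_num : (0:ℝ) ≤ 1 / 8)
    rw [Real.mul_rpow hR hI, ← Real.rpow_natCast, ← Real.rpow_mul (norm_nonneg _)] at h5
    norm_num at h5
    norm_num
    exact h5

theorem heat_mild {t : ℝ} (ht : 0 ≤ t) (x : CoerciveISS.X) {u : ℝ → ℝ} (hu : IsInput u) :
    heat.mild t x u = CoerciveISS.mild t x (MemLp.toLp u hu) := by
  rw [ControlSystem.mild, CoerciveISS.mild]
  change heatS t x + heatΦ t u = _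
  rw [heatS_eq ht, heatΦ, dif_pos hu]

theorem heat_expStable : ExponentiallyStable heat := by
  refine ⟨1, 1, one_pos, fun t ht => ?_⟩
  rw [one_mul, one_mul]
  exact heatS_norm ht

end Y912.IS.Heat
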