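import Pool.Agent.Y912.IS.Norm

set_option autoImplicit false
set_option linter.unusedSectionVars false

namespace Y912.IS

open MeasureTheory Set Filter Topology

variable {X U : Type*} [NormedAddCommGroup X] [NormedSpace ℝ X] [NormedAddCommGroup U]
  [NormedSpace ℝ U] {p : ℝ}

/-- Class K comparison functions. -/
structure ClassK (f : ℝ → ℝ) : Prop where
  zero : f 0 = 0
  cont : ContinuousOn f (Ici 0)
  mono : StrictMonoOn f (Ici 0)

/-- Class K_infinity comparison functions. -/
structure ClassKInf (f : ℝ → ℝ) : Prop where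
  classK : ClassK f
  unbounded : Tendsto f atTop atTop

/-- Class KL comparison functions. -/
structure ClassKL (β : ℝ → ℝ → ℝ) : Prop where
  classK : ∀ t, 0 ≤ t → ClassK fun r => β r t
  cont : ∀ r, 0 < r → ContinuousOn (β r) (Ici 0)
  anti : ∀ r, 0 < r → StrictAntiOn (β r) (Ici 0)
  lim : ∀ r, 0 < r → Tendsto (β r) atTop (𝓝 0)

/-- The mild solution. -/
def ControlSystem.mild (G : ControlSystem p X U) (t : ℝ) (x : X) (u : ℝ → U) : X :=
  G.S t x + G.Φ t u

/-- the norm of an input in `L_∞(0, ∞)` -/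
noncomputable def inputNorm (u : ℝ → U) : ℝ := (eLpNorm u ⊤ pos).toReal

/-- The semigroup is exponentially stable. -/
def ExponentiallyStable (G : ControlSystem p X U) : Prop :=
  ∃ M ω : ℝ, 0 < ω ∧ ∀ t, 0 ≤ t → ‖G.S t‖ ≤ M * Real.exp (-(ω * t))

/-- Input-to-state stability. -/
def ISS (G : ControlSystem p X U) : Prop :=
  ∃ (β : ℝ → ℝ → ℝ) (γ : ℝ → ℝ), ClassKL β ∧ ClassKInf γ ∧
    ∀ (t : ℝ) (x : X) (u : ℝ → U), 0 ≤ t → IsInput u →
      ‖G.mild t x u‖ ≤ β ‖x‖ t + γ (inputNorm u)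

/-- The derivative of `V` along the trajectory, as an extended real. -/
noncomputable def lieDerivative (G : ControlSystem p X U) (V : X → ℝ) (x : X) (u : ℝ → U) : EReal :=
  Filter.limsup (fun h : ℝ => (((V (G.mild h x u) - V x) / h : ℝ) : EReal)) (𝓝[>] 0)

/-- Coercive ISS Lyapunov functions. -/
def IsCoerciveISSLyapunov (G : ControlSystem p X U) (V : X → ℝ) : Prop :=
  Continuous V ∧ (∀ x, 0 ≤ V x) ∧
    ∃ ψ₁ ψ₂ α σ : ℝ → ℝ, ClassKInf ψ₁ ∧ ClassKInf ψ₂ ∧ ClassKInf α ∧ ClassK σ ∧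
      (∀ x : X, ψ₁ ‖x‖ ≤ V x ∧ V x ≤ ψ₂ ‖x‖) ∧
      ∀ (x : X) (u : ℝ → U), IsInput u →
        lieDerivative G V x u ≤ ((-α ‖x‖ + σ (inputNorm u) : ℝ) : EReal)

theorem inputNorm_nonneg (u : ℝ → U) : 0 ≤ inputNorm u := ENNReal.toReal_nonneg

theorem inputNorm_zero : inputNorm (fun _ : ℝ => (0 : U)) = 0 := by
  unfold inputNorm
  have : (fun _ : ℝ => (0 : U)) = 0 := rfl
  rw [this, eLpNorm_zero, ENNReal.toReal_zero]

/-! ### from a contraction time to exponential stability -/

theorem expStable_of (G : ControlSystem p X U) {T R : ℝ} (hT : 0 < T) (hR : 0 ≤ R)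
    (h1 : ‖G.S T‖ ≤ 1 / 2) (h2 : ∀ t, 0 ≤ t → t ≤ T → ‖G.S t‖ ≤ R) : ExponentiallyStable G := by
  have hpow : ∀ n : ℕ, ‖G.S (n * T)‖ ≤ (1 / 2) ^ n := by
    intro n
    induction n with
    | zero =>
      rw [Nat.cast_zero, zero_mul, G.S_zero, pow_zero]
      exact ContinuousLinearMap.norm_id_le
    | succ n ih =>
      have e : ((n + 1 : ℕ) : ℝ) * T = T + n * T := by push_cast; ring
      rw [e, G.S_add T (n * T) hT.le (by positivity), pow_succ, mul_comm ((1 / 2 : ℝ) ^ n)]
      refine (ContinuousLinearMap.opNorm_comp_le _ _).trans ?_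
      exact mul_le_mul h1 ih (norm_nonneg _) (by norm_num)
  refine ⟨2 * R, Real.log 2 / T, by have := Real.log_pos (show (1:ℝ) < 2 by norm_num); positivity, ?_⟩
  intro t ht
  set n := ⌊t / T⌋₊ with hn
  have hn1 : (n : ℝ) * T ≤ t := by
    have := Nat.floor_le (div_nonneg ht hT.le)
    rwa [← hn, le_div_iff₀ hT] at this
  have hn2 : t < (n + 1) * T := by
    have := Nat.lt_floor_add_one (t / T)
    rwa [← hn, div_lt_iff₀ hT] at this
  have e : t = n * T + (t - n * T) := by ring
  have h3 : ‖G.S t‖ ≤ (1 / 2) ^ n * R := by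
    rw [e, G.S_add _ _ (by positivity) (by linarith)]
    refine (ContinuousLinearMap.opNorm_comp_le _ _).trans ?_
    exact mul_le_mul (hpow n) (h2 _ (by linarith) (by linarith)) (norm_nonneg _) (by positivity)
  have h4 : ((1:ℝ) / 2) ^ n ≤ 2 * Real.exp (-(Real.log 2 / T * t)) := by
    have h5 : Real.exp (-(Real.log 2 * (n + 1))) ≤ Real.exp (-(Real.log 2 / T * t)) := by
      apply Real.exp_le_exp.2
      have hl := Real.log_pos (show (1:ℝ) < 2 by norm_num)
      have h6 : t / T ≤ n + 1 := by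
        rw [div_le_iff₀ hT]
        exact hn2.le
      have : Real.log 2 / T * t = Real.log 2 * (t / T) := by ring
      rw [this]
      nlinarith
    have h7 : Real.exp (-(Real.log 2 * (n + 1))) = (1 / 2) ^ (n + 1) := by
      rw [show -(Real.log 2 * ((n : ℝ) + 1)) = ((n + 1 : ℕ) : ℝ) * (-Real.log 2) by push_cast; ring,
        Real.exp_nat_mul, Real.exp_neg, Real.exp_log (by norm_num)]
      norm_num
    rw [h7, pow_succ] at h5
    linarith
  calc ‖G.S t‖ ≤ (1 / 2) ^ n * R := h3
    _ ≤ (2 * Real.exp (-(Real.log 2 / T * t))) * R := by gcongr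
    _ = _ := by ring

/-! ### ISS implies exponential stability -/

theorem expStable_of_iss (hp : 0 < p) (G : ControlSystem p X U) (h : ISS G) :
    ExponentiallyStable G := by
  obtain ⟨β, γ, hβ, hγ, hb⟩ := h
  have key : ∀ t, 0 ≤ t → ‖G.S t‖ ≤ max (β 1 t) 0 := by
    intro t ht
    apply ContinuousLinearMap.opNorm_le_of_unit_norm (le_max_right _ _)
    intro x hx
    have h1 := hb t x (fun _ => 0) ht isInput_zero
    rw [ControlSystem.mild, Φ_zero_input G hp ht, add_zero, inputNorm_zero, hγ.classK.zero, add_zero,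
      hx] at h1
    exact h1.trans (le_max_left _ _)
  obtain ⟨T, hT1, hT2⟩ := (((hβ.lim 1 one_pos).eventually (gt_mem_nhds
    (show (0:ℝ) < 1 / 2 by norm_num))).and (eventually_gt_atTop 0)).exists
  refine expStable_of G (T := T) (R := max (β 1 0) 0) hT2 (le_max_right _ _) ?_ ?_
  · exact (key T hT2.le).trans (max_le hT1.le (by norm_num))
  · intro t ht _
    refine (key t ht).trans (max_le_max ?_ le_rfl)
    exact (hβ.anti 1 one_pos).antitoneOn (mem_Ici.2 (le_refl (0:ℝ))) (mem_Ici.2 ht) ht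

/-! ### a coercive Lyapunov function implies exponential stability -/

theorem expStable_of_lyapunov (hp : 0 < p) (G : ControlSystem p X U) (V : X → ℝ)
    (h : IsCoerciveISSLyapunov G V) : ExponentiallyStable G := by
  obtain ⟨hVc, hV0, ψ₁, ψ₂, α, σ, h1, h2, hα, hσ, hb, hd⟩ := h
  have hαnn : ∀ r, 0 ≤ r → 0 ≤ α r := fun r hr => by
    rw [← hα.classK.zero]
    exact hα.classK.mono.monotoneOn (mem_Ici.2 (le_refl (0:ℝ))) (mem_Ici.2 hr) hr
  -- decay along trajectories
  have decay : ∀ (x : X) (a b c : ℝ), 0 ≤ a → a ≤ b → (∀ t ∈ Ico a b, c ≤ α ‖G.S t x‖) →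
      V (G.S b x) ≤ V (G.S a x) - c * (b - a) := by
    intro x a b c ha hab hc
    have hcont : ContinuousOn (fun t => V (G.S t x)) (Icc a b) :=
      hVc.comp_continuousOn ((G.S_cont x).mono fun t ht => ha.trans ht.1)
    have hBd : ∀ t : ℝ, HasDerivAt (fun t => V (G.S a x) - c * (t - a)) (-c) t := by
      intro t
      have h3 := (((hasDerivAt_id t).sub_const a).const_mul c).const_sub (V (G.S a x))
      simpa using h3
    have hmain := image_le_of_liminf_slope_right_le_deriv_boundary hcont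
      (B := fun t => V (G.S a x) - c * (t - a)) (B' := fun _ => -c) (by simp)
      (fun t _ => (hBd t).continuousAt.continuousWithinAt)
      (fun t _ => (hBd t).hasDerivWithinAt) (by
        intro t ht r hr
        have ht0 : 0 ≤ t := ha.trans ht.1
        apply Filter.Eventually.frequently
        have h3 := hd (G.S t x) (fun _ => 0) isInput_zero
        rw [inputNorm_zero, hσ.zero, add_zero] at h3
        have h4 : lieDerivative G V (G.S t x) (fun _ => 0) < ((r : ℝ) : EReal) := by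
          refine lt_of_le_of_lt h3 ?_
          rw [EReal.coe_lt_coe_iff]
          have := hc t ht
          linarith
        have h5 := Filter.eventually_lt_of_limsup_lt h4
        have hlim : Tendsto (fun z : ℝ => z - t) (𝓝[>] t) (𝓝[>] 0) := by
          apply tendsto_nhdsWithin_of_tendsto_nhds_of_eventually_within
          · have : Tendsto (fun z : ℝ => z - t) (𝓝 t) (𝓝 (t - t)) := by
              exact (continuous_sub_right t).tendsto t
            rw [sub_self] at this
            exact this.mono_left nhdsWithin_le_nhds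
          · filter_upwards [self_mem_nhdsWithin] with z hz
            exact mem_Ioi.2 (sub_pos.2 (mem_Ioi.1 hz))
        filter_upwards [hlim.eventually h5, self_mem_nhdsWithin] with z hz hzt
        have hzt' : 0 < z - t := sub_pos.2 (mem_Ioi.1 hzt)
        rw [EReal.coe_lt_coe_iff, ControlSystem.mild, Φ_zero_input G hp hzt'.le, add_zero] at hz
        have e : G.S (z - t) (G.S t x) = G.S z x := by
          have := G.S_add (z - t) t hzt'.le ht0
          rw [sub_add_cancel] at this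
          rw [this]
          rfl
        rw [e] at hz
        rw [slope_def_field]
        exact hz)
    have := hmain (right_mem_Icc.2 hab)
    exact this
  -- choice of the constants
  have h10 : 0 < ψ₁ (1 / 2) := by
    have := h1.classK.mono (mem_Ici.2 (le_refl (0:ℝ)))
      (mem_Ici.2 (by norm_num : (0:ℝ) ≤ 1 / 2)) (by norm_num)
    rwa [h1.classK.zero] at this
  obtain ⟨ε, hε0, hε⟩ : ∃ ε : ℝ, 0 < ε ∧ ψ₂ ε < ψ₁ (1 / 2) := by
    have hc := h2.classK.cont 0 (mem_Ici.2 (le_refl (0:ℝ)))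
    have hc' : ContinuousWithinAt ψ₂ (Ioi 0) 0 := hc.mono Ioi_subset_Ici_self
    have h3 : Tendsto ψ₂ (𝓝[>] 0) (𝓝 0) := by
      have := hc'.tendsto
      rwa [h2.classK.zero] at this
    obtain ⟨ε, h4, h5⟩ := ((h3.eventually (gt_mem_nhds h10)).and self_mem_nhdsWithin).exists
    exact ⟨ε, mem_Ioi.1 h5, h4⟩
  have hαε : 0 < α ε := by
    have := hα.classK.mono (mem_Ici.2 (le_refl (0:ℝ))) (mem_Ici.2 hε0.le) hε0
    rwa [hα.classK.zero] at this
  have hψ21 : 0 ≤ ψ₂ 1 := by
    rw [← h2.classK.zero]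
    exact h2.classK.mono.monotoneOn (mem_Ici.2 (le_refl (0:ℝ)))
      (mem_Ici.2 (zero_le_one : (0:ℝ) ≤ 1)) zero_le_one
  set T : ℝ := ψ₂ 1 / α ε + 1 with hT
  have hT0 : 0 < T := by positivity
  have hVdec : ∀ (x : X) (a b : ℝ), 0 ≤ a → a ≤ b → V (G.S b x) ≤ V (G.S a x) := by
    intro x a b ha hab
    have := decay x a b 0 ha hab fun t _ => hαnn _ (norm_nonneg _)
    simpa using this
  have hV1 : ∀ x : X, ‖x‖ = 1 → V (G.S 0 x) ≤ ψ₂ 1 := by
    intro x hx
    rw [G.S_zero]
    have := (hb x).2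
    rw [hx] at this
    exact this
  obtain ⟨R, hR0, hR⟩ : ∃ R : ℝ, 0 ≤ R ∧ ψ₂ 1 ≤ ψ₁ R :=
    ((eventually_ge_atTop 0).and (h1.unbounded.eventually_ge_atTop (ψ₂ 1))).exists
  refine expStable_of G (T := T) (R := R) hT0 hR0 ?_ ?_
  · apply ContinuousLinearMap.opNorm_le_of_unit_norm (by norm_num)
    intro x hx
    have hex : ∃ t ∈ Ico 0 T, ‖G.S t x‖ < ε := by
      by_contra hcon
      push Not at hcon
      have h3 := decay x 0 T (α ε) le_rfl hT0.le (fun t ht =>
        hα.classK.mono.monotoneOn (mem_Ici.2 hε0.le)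
          (mem_Ici.2 (norm_nonneg _)) (hcon t ht))
      have h4 := hV1 x hx
      have h5 := hV0 (G.S T x)
      have h6 : α ε * (T - 0) = ψ₂ 1 + α ε := by
        rw [hT]
        field_simp
        ring
      rw [h6] at h3
      linarith
    obtain ⟨t, ht, hlt⟩ := hex
    have h3 := hVdec x t T ht.1 ht.2.le
    have h4 := (hb (G.S t x)).2
    have h5 : ψ₂ ‖G.S t x‖ ≤ ψ₂ ε :=
      h2.classK.mono.monotoneOn (mem_Ici.2 (norm_nonneg _))
        (mem_Ici.2 hε0.le) hlt.le
    have h6 := (hb (G.S T x)).1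
    have h7 : ψ₁ ‖G.S T x‖ < ψ₁ (1 / 2) := by linarith
    exact ((h1.classK.mono.lt_iff_lt (mem_Ici.2 (norm_nonneg _))
      (mem_Ici.2 (by norm_num : (0:ℝ) ≤ 1 / 2))).1 h7).le
  · intro t ht _
    apply ContinuousLinearMap.opNorm_le_of_unit_norm hR0
    intro x hx
    have h3 := hVdec x 0 t le_rfl ht
    have h4 := hV1 x hx
    have h6 := (hb (G.S t x)).1
    have h7 : ψ₁ ‖G.S t x‖ ≤ ψ₁ R := by linarith
    exact (h1.classK.mono.le_iff_le (mem_Ici.2 (norm_nonneg _))
      (mem_Ici.2 hR0)).1 h7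

end Y912.IS
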