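import Pool.Agent.Y912.IS.Conv

set_option autoImplicit false
set_option linter.unusedSectionVars false

namespace Y912.IS

open MeasureTheory Set Filter Topology

variable {X U : Type*} [NormedAddCommGroup X] [NormedSpace ℝ X] [NormedAddCommGroup U]
  [NormedSpace ℝ U] {p : ℝ}

/-- `N` is a norm on `X` which is equivalent to the given one. -/
def IsEquivalentNorm (N : X → ℝ) : Prop :=
  (∀ x y : X, N (x + y) ≤ N x + N y) ∧ (∀ (c : ℝ) (x : X), N (c • x) = |c| * N x) ∧
    ∃ C : ℝ, ∀ x : X, ‖x‖ ≤ N x ∧ N x ≤ C * ‖x‖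

theorem classK_mul_rpow {c p : ℝ} (hc : 0 < c) (hp : 0 < p) : ClassKInf (fun s : ℝ => c * s ^ p) := by
  refine ⟨⟨by rw [Real.zero_rpow hp.ne', mul_zero], ?_, ?_⟩, ?_⟩
  · exact (continuous_const.mul (continuous_id.rpow_const fun _ => Or.inr hp.le)).continuousOn
  · intro a ha b hb hab
    exact mul_lt_mul_of_pos_left (Real.strictMonoOn_rpow_Ici_of_exponent_pos hp ha hb hab) hc
  · exact (tendsto_rpow_atTop hp).const_mul_atTop hc

theorem classK_mul {c : ℝ} (hc : 0 < c) : ClassKInf (fun s : ℝ => c * s) := by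
  refine ⟨⟨by simp, by fun_prop, ?_⟩, ?_⟩
  · intro a _ b _ hab
    exact mul_lt_mul_of_pos_left hab hc
  · exact tendsto_id.const_mul_atTop hc

theorem IsInput.norm_le {u : ℝ → U} (hu : IsInput u) (h : ℝ) :
    ∀ᵐ s ∂(volume.restrict (Ioc (0 : ℝ) h)), ‖u s‖ ≤ inputNorm u := by
  have hsub : Ioc 0 h ⊆ Ioi (0:ℝ) := fun s hs => hs.1
  exact ae_mono (Measure.restrict_mono hsub le_rfl) hu.bound

theorem IsInput.int_le {u : ℝ → U} (hu : IsInput u) (hp : 0 ≤ p) {K : ℝ → ℝ} (hK : Continuous K)
    (hK0 : ∀ s, 0 ≤ K s) {h : ℝ} (hh : 0 ≤ h) :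
    ∫ s in (0:ℝ)..h, K s * ‖u s‖ ^ p ≤ (∫ s in (0:ℝ)..h, K s) * inputNorm u ^ p := by
  rw [← intervalIntegral.integral_mul_const, intervalIntegral.integral_of_le hh,
    intervalIntegral.integral_of_le hh]
  apply setIntegral_mono_ae_restrict
  · exact (hu.integrable hp hK le_rfl hh).1
  · exact ((hK.intervalIntegrable 0 h).mul_const _).1
  · filter_upwards [hu.norm_le h] with s hs
    exact mul_le_mul_of_nonneg_left (Real.rpow_le_rpow (norm_nonneg _) hs hp) (hK0 s)

theorem int_exp {γ h : ℝ} (hγ : 0 < γ) : ∫ s in (0:ℝ)..h, Real.exp (-(γ * (h - s))) ≤ 1 / γ := by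
  have hd : ∀ s ∈ uIcc 0 h, HasDerivAt (fun s => Real.exp (-(γ * (h - s))) / γ)
      (Real.exp (-(γ * (h - s)))) s := by
    intro s _
    have h1 : HasDerivAt (fun s : ℝ => -(γ * (h - s))) (-(γ * (-1))) s :=
      (((hasDerivAt_id' s).const_sub h).const_mul γ).fun_neg
    have := h1.exp.div_const γ
    refine this.congr_deriv ?_
    rw [div_eq_iff hγ.ne']
    ring
  rw [intervalIntegral.integral_eq_sub_of_hasDerivAt hd
    ((by fun_prop : Continuous fun s => Real.exp (-(γ * (h - s)))).intervalIntegrable _ _)]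
  simp only [sub_self, mul_zero, neg_zero, Real.exp_zero]
  have : 0 ≤ Real.exp (-(γ * (h - 0))) / γ := by positivity
  linarith

variable {G : ControlSystem p X U} {γ D B : ℝ}

theorem Hyp.N_dissip (H : Hyp G γ D B) (x : X) {u : ℝ → U} (hu : IsInput u) {h : ℝ} (hh : 0 ≤ h) :
    N G γ D (G.mild h x u) ^ p ≤ Real.exp (-(γ * h)) * N G γ D x ^ p +
      D * ∫ s in (0:ℝ)..h, Real.exp (-(γ * (h - s))) * ‖u s‖ ^ p := by
  rw [H.N_pow, H.N_pow]
  exact H.dissip x hu hh

theorem Hyp.isEquivalentNorm (H : Hyp G γ D B) : IsEquivalentNorm (N G γ D) :=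
  ⟨H.N_add, H.N_smul, B ^ (1 / p), fun x => ⟨H.le_N x, H.N_le x⟩⟩

theorem IsEquivalentNorm.continuous {N : X → ℝ} (hN : IsEquivalentNorm N) : Continuous N := by
  obtain ⟨h1, h2, C, h3⟩ := hN
  have key : ∀ x y : X, N x - N y ≤ max C 0 * ‖x - y‖ := by
    intro x y
    have h4 := h1 (x - y) y
    rw [sub_add_cancel] at h4
    have h5 := (h3 (x - y)).2
    have h6 : C * ‖x - y‖ ≤ max C 0 * ‖x - y‖ :=
      mul_le_mul_of_nonneg_right (le_max_left _ _) (norm_nonneg _)
    linarith
  have hl : LipschitzWith (Real.toNNReal (max C 0)) N := by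
    apply LipschitzWith.of_dist_le_mul
    intro x y
    rw [Real.dist_eq, dist_eq_norm, Real.coe_toNNReal _ (le_max_right _ _), abs_le]
    constructor
    · have := key y x
      rw [norm_sub_rev] at this
      linarith
    · exact key x y
  exact hl.continuous

/-- Input-to-state stability. -/
theorem Hyp.iss (H : Hyp G γ D B) (hγ : 0 < γ) : ISS G := by
  have hp0 : 0 < p := by linarith [H.hp]
  set c : ℝ := (max B 1) ^ (1 / p) with hc
  have hB1 : 0 < max B 1 := lt_of_lt_of_le one_pos (le_max_right _ _)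
  have hc0 : 0 < c := Real.rpow_pos_of_pos hB1 _
  set d : ℝ := (D / γ) ^ (1 / p) + 1 with hd
  have hd0 : 0 < d := by
    have : 0 ≤ (D / γ) ^ (1 / p) := Real.rpow_nonneg (div_nonneg H.hD hγ.le) _
    linarith
  refine ⟨fun r t => c * Real.exp (-(γ / p * t)) * r, fun s => d * s, ?_, classK_mul hd0, ?_⟩
  · have hγp : 0 < γ / p := by positivity
    refine ⟨fun t _ => (classK_mul (by positivity)).classK, ?_, ?_, ?_⟩
    · intro r _
      exact Continuous.continuousOn (by fun_prop)
    · intro r hr a _ b _ hab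
      have h1 : Real.exp (-(γ / p * b)) < Real.exp (-(γ / p * a)) := by
        apply Real.exp_lt_exp.2
        have := mul_lt_mul_of_pos_left hab hγp
        linarith
      exact mul_lt_mul_of_pos_right (mul_lt_mul_of_pos_left h1 hc0) hr
    · intro r _
      have h1 : Tendsto (fun t : ℝ => Real.exp (-(γ / p * t))) atTop (𝓝 0) :=
        Real.tendsto_exp_neg_atTop_nhds_zero.comp (tendsto_id.const_mul_atTop hγp)
      have h2 := (h1.const_mul c).mul_const r
      simpa using h2
  · intro t x u ht hu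
    have h1 := H.N_dissip x hu ht
    have h2 := hu.int_le hp0.le (K := fun s => Real.exp (-(γ * (t - s)))) (by fun_prop)
      (fun s => (Real.exp_pos _).le) ht
    have h3 : (∫ s in (0:ℝ)..t, Real.exp (-(γ * (t - s)))) * inputNorm u ^ p ≤
        1 / γ * inputNorm u ^ p :=
      mul_le_mul_of_nonneg_right (int_exp hγ) (Real.rpow_nonneg (inputNorm_nonneg u) _)
    have h4 : N G γ D (G.mild t x u) ^ p ≤
        Real.exp (-(γ * t)) * N G γ D x ^ p + D / γ * inputNorm u ^ p := by
      have h5 := mul_le_mul_of_nonneg_left (h2.trans h3) H.hD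
      have h6 : D * (1 / γ * inputNorm u ^ p) = D / γ * inputNorm u ^ p := by ring
      rw [h6] at h5
      linarith
    have hN0 := H.N_nonneg x
    have hI0 := inputNorm_nonneg u
    have hDγ : 0 ≤ D / γ := div_nonneg H.hD hγ.le
    have h7 : N G γ D (G.mild t x u) ≤
        (Real.exp (-(γ * t)) * N G γ D x ^ p) ^ (1 / p) + (D / γ * inputNorm u ^ p) ^ (1 / p) := by
      have h8 := Real.rpow_le_rpow (Real.rpow_nonneg (H.N_nonneg _) _) h4
        (by positivity : 0 ≤ 1 / p)
      rw [← Real.rpow_mul (H.N_nonneg _), mul_one_div_cancel hp0.ne', Real.rpow_one] at h8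
      refine h8.trans ?_
      apply Real.rpow_add_le_add_rpow (by positivity) (by positivity) (by positivity)
      rw [div_le_one hp0]
      exact H.hp
    have h9 : (Real.exp (-(γ * t)) * N G γ D x ^ p) ^ (1 / p) =
        Real.exp (-(γ / p * t)) * N G γ D x := by
      rw [Real.mul_rpow (Real.exp_pos _).le (Real.rpow_nonneg hN0 _), ← Real.rpow_mul hN0,
        mul_one_div_cancel hp0.ne', Real.rpow_one, ← Real.exp_mul]
      congr 2
      field_simp
    have h10 : (D / γ * inputNorm u ^ p) ^ (1 / p) = (D / γ) ^ (1 / p) * inputNorm u := by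
      rw [Real.mul_rpow hDγ (Real.rpow_nonneg hI0 _), ← Real.rpow_mul hI0,
        mul_one_div_cancel hp0.ne', Real.rpow_one]
    rw [h9, h10] at h7
    have h11 : N G γ D x ≤ c * ‖x‖ := by
      refine (H.N_le x).trans ?_
      apply mul_le_mul_of_nonneg_right _ (norm_nonneg _)
      exact Real.rpow_le_rpow H.hB (le_max_left _ _) (by positivity)
    calc ‖G.mild t x u‖ ≤ N G γ D (G.mild t x u) := H.le_N _
      _ ≤ Real.exp (-(γ / p * t)) * N G γ D x + (D / γ) ^ (1 / p) * inputNorm u := h7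
      _ ≤ Real.exp (-(γ / p * t)) * (c * ‖x‖) + d * inputNorm u := by
          gcongr
          rw [hd]
          linarith
      _ = _ := by ring

/-- The p-th power of the norm is a coercive ISS Lyapunov function. -/
theorem Hyp.lyapunov (H : Hyp G γ D B) (hγ : 0 < γ) :
    IsCoerciveISSLyapunov G (fun x => N G γ D x ^ p) := by
  have hp0 : 0 < p := by linarith [H.hp]
  refine ⟨H.isEquivalentNorm.continuous.rpow_const fun _ => Or.inr hp0.le,
    fun x => Real.rpow_nonneg (H.N_nonneg x) _, fun s => 1 * s ^ p, fun s => (B + 1) * s ^ p,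
    fun s => γ * s ^ p, fun s => (D + 1) * s ^ p, classK_mul_rpow one_pos hp0,
    classK_mul_rpow (by linarith [H.hB]) hp0, classK_mul_rpow hγ hp0,
    (classK_mul_rpow (by linarith [H.hD]) hp0).classK, ?_, ?_⟩
  · intro x
    simp only
    rw [H.N_pow, one_mul]
    refine ⟨H.le_V x, (H.V_le x).trans ?_⟩
    apply mul_le_mul_of_nonneg_right _ (by positivity)
    linarith
  · intro x u hu
    set W := N G γ D x ^ p with hW
    have hWx : ‖x‖ ^ p ≤ W := by
      rw [hW, H.N_pow]
      exact H.le_V x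
    have hI0 : 0 ≤ inputNorm u ^ p := Real.rpow_nonneg (inputNorm_nonneg u) _
    have hstep : ∀ᶠ h : ℝ in 𝓝[>] 0,
        (((N G γ D (G.mild h x u) ^ p - W) / h : ℝ) : EReal) ≤
          (((Real.exp (-(γ * h)) - 1) / h * W + D * inputNorm u ^ p : ℝ) : EReal) := by
      filter_upwards [self_mem_nhdsWithin] with h hh
      rw [EReal.coe_le_coe_iff]
      have hh0 : (0:ℝ) < h := mem_Ioi.1 hh
      have h1 := H.N_dissip x hu hh0.le
      have h2 := hu.int_le hp0.le (K := fun s => Real.exp (-(γ * (h - s)))) (by fun_prop)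
        (fun s => (Real.exp_pos _).le) hh0.le
      have h3 : ∫ s in (0:ℝ)..h, Real.exp (-(γ * (h - s))) ≤ h := by
        have h4 : ∫ s in (0:ℝ)..h, Real.exp (-(γ * (h - s))) ≤ ∫ s in (0:ℝ)..h, (1:ℝ) := by
          apply intervalIntegral.integral_mono_on hh0.le
          · exact (by fun_prop : Continuous fun s => Real.exp (-(γ * (h - s)))).intervalIntegrable _ _
          · exact intervalIntegrable_const
          · intro s hs
            apply Real.exp_le_one_iff.2
            have := mul_nonneg hγ.le (sub_nonneg.2 hs.2)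
            linarith
        simpa using h4
      have h5 := mul_le_mul_of_nonneg_left (h2.trans (mul_le_mul_of_nonneg_right h3 hI0)) H.hD
      rw [div_le_iff₀ hh0]
      have h6 : ((Real.exp (-(γ * h)) - 1) / h * W + D * inputNorm u ^ p) * h =
          (Real.exp (-(γ * h)) - 1) * W + D * (h * inputNorm u ^ p) := by
        field_simp
      rw [h6]
      linarith
    have hlim : Tendsto (fun h : ℝ =>
        (((Real.exp (-(γ * h)) - 1) / h * W + D * inputNorm u ^ p : ℝ) : EReal)) (𝓝[>] 0)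
        (𝓝 (((-γ) * W + D * inputNorm u ^ p : ℝ) : EReal)) := by
      apply (continuous_coe_real_ereal.tendsto _).comp
      apply Tendsto.add_const
      apply Tendsto.mul_const
      have h1 : HasDerivAt (fun h : ℝ => Real.exp (-(γ * h))) (-γ) 0 := by
        have := (((hasDerivAt_id (0:ℝ)).const_mul γ).fun_neg).exp
        simpa using this
      have h2 := h1.tendsto_slope_zero_right
      refine h2.congr' ?_
      filter_upwards with h
      simp [div_eq_inv_mul]
    calc lieDerivative G (fun x => N G γ D x ^ p) x u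
        ≤ Filter.limsup (fun h : ℝ =>
          (((Real.exp (-(γ * h)) - 1) / h * W + D * inputNorm u ^ p : ℝ) : EReal)) (𝓝[>] 0) :=
          Filter.limsup_le_limsup hstep
      _ = (((-γ) * W + D * inputNorm u ^ p : ℝ) : EReal) := hlim.limsup_eq
      _ ≤ ((-(γ * ‖x‖ ^ p) + (D + 1) * inputNorm u ^ p : ℝ) : EReal) := by
          rw [EReal.coe_le_coe_iff]
          have h7 := mul_le_mul_of_nonneg_left hWx hγ.le
          linarith

/-- The conclusion for one system. -/
def HasLyapunovNorm (G : ControlSystem p X U) : Prop :=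
  ∃ (N : X → ℝ) (γ D : ℝ), IsEquivalentNorm N ∧ 0 < γ ∧ 0 ≤ D ∧
    IsCoerciveISSLyapunov G (fun x => N x ^ p) ∧
    ∀ (x : X) (u : ℝ → U) (h : ℝ), 0 ≤ h → IsInput u →
      N (G.mild h x u) ^ p ≤ Real.exp (-(γ * h)) * N x ^ p +
        D * ∫ s in (0:ℝ)..h, Real.exp (-(γ * (h - s))) * ‖u s‖ ^ p

theorem hasLyapunovNorm_of_expStable (hp : 1 ≤ p) (G : ControlSystem p X U)
    (h : ExponentiallyStable G) : HasLyapunovNorm G := by
  obtain ⟨M, ω, hω, hS⟩ := h
  obtain ⟨γ, D, B, hγ, H⟩ := exists_hyp G hp hω hS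
  exact ⟨N G γ D, γ, D, H.isEquivalentNorm, hγ, H.hD, H.lyapunov hγ,
    fun x u h hh hu => H.N_dissip x hu hh⟩

theorem iss_of_expStable (hp : 1 ≤ p) (G : ControlSystem p X U)
    (h : ExponentiallyStable G) : ISS G := by
  obtain ⟨M, ω, hω, hS⟩ := h
  obtain ⟨γ, D, B, hγ, H⟩ := exists_hyp G hp hω hS
  exact H.iss hγ

theorem tfae (hp : 1 ≤ p) (G : ControlSystem p X U) :
    [ExponentiallyStable G, ISS G, ∃ V : X → ℝ, IsCoerciveISSLyapunov G V,
      HasLyapunovNorm G].TFAE := by
  tfae_have 1 → 2 := iss_of_expStable hp G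
  tfae_have 2 → 1 := expStable_of_iss (by linarith) G
  tfae_have 1 → 4 := hasLyapunovNorm_of_expStable hp G
  tfae_have 4 → 3 := fun ⟨N, _, _, _, _, _, h, _⟩ => ⟨_, h⟩
  tfae_have 3 → 1 := fun ⟨V, h⟩ => expStable_of_lyapunov (by linarith) G V h
  tfae_finish

end Y912.IS
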