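import Mathlib

set_option autoImplicit false
set_option linter.unusedSectionVars false

namespace Y912.IS

open MeasureTheory Set Filter Topology

variable {X U : Type*} [NormedAddCommGroup X] [NormedSpace ℝ X] [NormedAddCommGroup U]
  [NormedSpace ℝ U]

/-- Lebesgue measure on the positive half-line -/
noncomputable abbrev pos : Measure ℝ := volume.restrict (Ioi (0 : ℝ))

/-- The essentially bounded (strongly measurable) inputs `u : (0, ∞) → U`. -/
def IsInput (u : ℝ → U) : Prop := MemLp u ⊤ pos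

/-- concatenation: `u` up to time `h`, then `v` -/
noncomputable def cat (h : ℝ) (u v : ℝ → U) (s : ℝ) : U := if s ≤ h then u s else v (s - h)

/-- A linear control system on `X` with inputs in `U`, whose input operator is `L^p`-admissible:
a strongly continuous semigroup `S` and linear input maps `Φ t` with the composition property and
`‖Φ t u‖ ≤ K (∫₀ᵗ ‖u‖^p)^(1/p)`. -/
structure ControlSystem (p : ℝ) (X U : Type*) [NormedAddCommGroup X] [NormedSpace ℝ X]
    [NormedAddCommGroup U] [NormedSpace ℝ U] where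
  S : ℝ → X →L[ℝ] X
  Φ : ℝ → (ℝ → U) → X
  S_zero : S 0 = ContinuousLinearMap.id ℝ X
  S_add : ∀ s t : ℝ, 0 ≤ s → 0 ≤ t → S (s + t) = (S s).comp (S t)
  S_cont : ∀ x : X, ContinuousOn (fun t => S t x) (Ici 0)
  Φ_congr : ∀ (t : ℝ) (u v : ℝ → U), 0 ≤ t → IsInput u → IsInput v →
    (∀ᵐ s ∂(volume.restrict (Ioc (0 : ℝ) t)), u s = v s) → Φ t u = Φ t v
  Φ_add : ∀ (t : ℝ) (u v : ℝ → U), 0 ≤ t → IsInput u → IsInput v →
    Φ t (fun s => u s + v s) = Φ t u + Φ t v
  Φ_smul : ∀ (t c : ℝ) (u : ℝ → U), 0 ≤ t → IsInput u → Φ t (fun s => c • u s) = c • Φ t u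
  Φ_cat : ∀ (t h : ℝ) (u v : ℝ → U), 0 ≤ t → 0 ≤ h → IsInput u → IsInput v →
    Φ (t + h) (cat h u v) = S t (Φ h u) + Φ t v
  Φ_bound : ∀ t : ℝ, 0 ≤ t → ∃ K : ℝ, ∀ u : ℝ → U, IsInput u →
    ‖Φ t u‖ ≤ K * (∫ s in (0 : ℝ)..t, ‖u s‖ ^ p) ^ (1 / p)

/-! ### inputs -/

theorem isInput_zero : IsInput (fun _ : ℝ => (0 : U)) := MemLp.zero'

theorem IsInput.smul {u : ℝ → U} (hu : IsInput u) (c : ℝ) : IsInput (fun s => c • u s) :=
  MemLp.const_smul hu c

theorem IsInput.bound {u : ℝ → U} (hu : IsInput u) :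
    ∀ᵐ s ∂(pos), ‖u s‖ ≤ (eLpNorm u ⊤ pos).toReal := by
  have h2 := ae_le_eLpNormEssSup (f := u) (μ := pos)
  have h3 : eLpNorm u ⊤ pos ≠ ⊤ := hu.2.ne
  filter_upwards [h2] with s hs
  rw [← eLpNorm_exponent_top] at hs
  have := ENNReal.toReal_mono h3 hs
  simpa using this

theorem pres (h : ℝ) : MeasurePreserving (fun s : ℝ => s - h) (volume.restrict (Ioi h)) pos := by
  have h1 := (measurePreserving_sub_right volume h).restrict_preimage (measurableSet_Ioi (a := (0:ℝ)))
  have h2 : (fun s : ℝ => s - h) ⁻¹' Ioi 0 = Ioi h := by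
    ext s
    simp
  rwa [h2] at h1

theorem pres' (h : ℝ) : MeasurePreserving (fun s : ℝ => s + h) pos (volume.restrict (Ioi h)) := by
  have h1 := (measurePreserving_add_right volume h).restrict_preimage (measurableSet_Ioi (a := h))
  have h2 : (fun s : ℝ => s + h) ⁻¹' Ioi h = Ioi 0 := by
    ext s
    simp
  rwa [h2] at h1

theorem IsInput.shift {u : ℝ → U} (hu : IsInput u) {h : ℝ} (hh : 0 ≤ h) :
    IsInput (fun s => u (s + h)) := by
  have h1 : MemLp u ⊤ (volume.restrict (Ioi h)) :=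
    MemLp.mono_measure (Measure.restrict_mono (Ioi_subset_Ioi hh) le_rfl) hu
  exact h1.comp_measurePreserving (pres' h)

theorem IsInput.cat {u v : ℝ → U} (hu : IsInput u) (hv : IsInput v) {h : ℝ} (hh : 0 ≤ h) :
    IsInput (cat h u v) := by
  have e : Y912.IS.cat h u v = (Iic h).piecewise u (fun s => v (s - h)) := by
    funext s
    simp only [Y912.IS.cat, Set.piecewise, mem_Iic]
  have hv' : MemLp (fun s => v (s - h)) ⊤ (volume.restrict (Ioi h)) :=
    MemLp.comp_measurePreserving hv (pres h)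
  have hr : pos.restrict (Iic h)ᶜ = volume.restrict (Ioi h) := by
    rw [Measure.restrict_restrict measurableSet_Iic.compl, compl_Iic,
      inter_eq_left.2 (Ioi_subset_Ioi hh)]
  rw [e]
  refine MemLp.piecewise measurableSet_Iic ?_ ?_
  · exact MemLp.mono_measure Measure.restrict_le_self hu
  · rw [hr]
    exact hv'

theorem IsInput.integrable {u : ℝ → U} (hu : IsInput u) {p : ℝ} (hp : 0 ≤ p) {K : ℝ → ℝ}
    (hK : Continuous K) {a b : ℝ} (ha : 0 ≤ a) (hb : 0 ≤ b) :
    IntervalIntegrable (fun s => K s * ‖u s‖ ^ p) volume a b := by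
  have key : ∀ a b : ℝ, 0 ≤ a → IntegrableOn (fun s => K s * ‖u s‖ ^ p) (Ioc a b) volume := by
    intro a b ha
    have hsub : Ioc a b ⊆ Ioi 0 := fun s hs => lt_of_le_of_lt ha hs.1
    have hle : volume.restrict (Ioc a b) ≤ pos := Measure.restrict_mono hsub le_rfl
    have hm : AEStronglyMeasurable (fun s => ‖u s‖ ^ p) (volume.restrict (Ioc a b)) :=
      ((hu.1.mono_measure hle).norm.aemeasurable.pow_const p).aestronglyMeasurable
    have h1 : IntegrableOn K (Ioc a b) volume :=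
      (hK.integrableOn_Icc (a := a) (b := b)).mono_set Ioc_subset_Icc_self
    refine Integrable.mul_bdd (c := (eLpNorm u ⊤ pos).toReal ^ p) h1 hm ?_
    filter_upwards [ae_mono hle hu.bound] with s hs
    rw [Real.norm_eq_abs, abs_of_nonneg (by positivity)]
    exact Real.rpow_le_rpow (norm_nonneg _) hs hp
  exact ⟨key a b ha, key b a hb⟩

theorem int_cat {K : ℝ → ℝ} (hK : Continuous K) {u v : ℝ → U} (hu : IsInput u) (hv : IsInput v)
    {h t p : ℝ} (hp : 0 ≤ p) (hh : 0 ≤ h) (ht : 0 ≤ t) :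
    ∫ s in (0:ℝ)..(t + h), K s * ‖cat h u v s‖ ^ p =
      (∫ s in (0:ℝ)..h, K s * ‖u s‖ ^ p) + ∫ s in (0:ℝ)..t, K (s + h) * ‖v s‖ ^ p := by
  have hc := hu.cat hv hh
  rw [← intervalIntegral.integral_add_adjacent_intervals
    (hc.integrable hp hK le_rfl hh) (hc.integrable hp hK hh (by linarith))]
  congr 1
  · apply intervalIntegral.integral_congr
    intro s hs
    rw [uIcc_of_le hh] at hs
    simp only [cat, if_pos hs.2]
  · have h1 : ∫ s in (0:ℝ)..t, K (s + h) * ‖v s‖ ^ p =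
        ∫ s in (0:ℝ)..t, (fun s => K s * ‖v (s - h)‖ ^ p) (s + h) := by
      apply intervalIntegral.integral_congr
      intro s _
      simp
    rw [h1, intervalIntegral.integral_comp_add_right (f := fun s => K s * ‖v (s - h)‖ ^ p) h, zero_add]
    apply intervalIntegral.integral_congr_ae
    filter_upwards with s hs
    rw [uIoc_of_le (by linarith)] at hs
    simp only [cat, if_neg (not_le.mpr hs.1)]

theorem cat_shift (u : ℝ → U) (h : ℝ) : cat h u (fun s => u (s + h)) = u := by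
  funext s
  simp only [cat]
  split_ifs
  · rfl
  · rw [sub_add_cancel]

/-! ### convexity -/

theorem conv {p θ a b : ℝ} (hp : 1 ≤ p) (h0 : 0 < θ) (h1 : θ < 1) (ha : 0 ≤ a) (hb : 0 ≤ b) :
    (θ * a + b) ^ p ≤ θ * a ^ p + (1 - θ) ^ (1 - p) * b ^ p := by
  have h2 : 0 < 1 - θ := by linarith
  have h3 := (convexOn_rpow hp).2 (x := a) (y := b / (1 - θ)) ha (by positivity : (0:ℝ) ≤ b / (1 - θ))
    h0.le h2.le (by ring)
  simp only [smul_eq_mul] at h3
  have e1 : (1 - θ) * (b / (1 - θ)) = b := by field_simp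
  have e2 : (1 - θ) * (b / (1 - θ)) ^ p = (1 - θ) ^ (1 - p) * b ^ p := by
    rw [Real.div_rpow hb h2.le, Real.rpow_sub h2, Real.rpow_one]
    ring
  rw [e1, e2] at h3
  exact h3

/-! ### the weighted estimate -/

variable {p : ℝ} (G : ControlSystem p X U)

theorem Φ_zero_input (hp : 0 < p) {t : ℝ} (ht : 0 ≤ t) : G.Φ t (fun _ => 0) = 0 := by
  obtain ⟨K, hK⟩ := G.Φ_bound t ht
  have h1 := hK _ isInput_zero
  rw [norm_zero, Real.zero_rpow hp.ne'] at h1
  simp only [intervalIntegral.integral_zero] at h1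
  rw [Real.zero_rpow (by positivity), mul_zero] at h1
  exact norm_le_zero_iff.1 h1

theorem Φ_small (hp : 1 ≤ p) {τ : ℝ} (hτ : 0 ≤ τ) : ∃ K : ℝ, 0 ≤ K ∧ ∀ t, 0 ≤ t → t ≤ τ →
    ∀ u, IsInput u → ‖G.Φ t u‖ ^ p ≤ K * ∫ s in (0:ℝ)..t, ‖u s‖ ^ p := by
  have hp0 : 0 < p := by linarith
  obtain ⟨K, hK⟩ := G.Φ_bound τ hτ
  refine ⟨(max K 0) ^ p, by positivity, ?_⟩
  intro t ht htτ u hu
  have hI : 0 ≤ ∫ s in (0:ℝ)..t, ‖u s‖ ^ p :=
    intervalIntegral.integral_nonneg ht fun s _ => by positivity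
  have h1 := G.Φ_cat t (τ - t) (fun _ => 0) u ht (by linarith) isInput_zero hu
  rw [Φ_zero_input G hp0 (by linarith), map_zero, zero_add] at h1
  have h2 := hK _ (isInput_zero.cat hu (h := τ - t) (by linarith))
  have h3 := int_cat (K := fun _ => (1:ℝ)) (by fun_prop) (isInput_zero (U := U)) hu
    (h := τ - t) (t := t) (p := p) hp0.le (by linarith) ht
  simp only [one_mul, norm_zero, Real.zero_rpow hp0.ne', intervalIntegral.integral_zero, zero_add] at h3
  have e : t + (τ - t) = τ := by ring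
  rw [e] at h1 h3
  rw [h1, h3] at h2
  calc ‖G.Φ t u‖ ^ p ≤ (max K 0 * (∫ s in (0:ℝ)..t, ‖u s‖ ^ p) ^ (1 / p)) ^ p := by
        apply Real.rpow_le_rpow (norm_nonneg _) _ hp0.le
        refine h2.trans ?_
        exact mul_le_mul_of_nonneg_right (le_max_left _ _) (by positivity)
    _ = (max K 0) ^ p * ∫ s in (0:ℝ)..t, ‖u s‖ ^ p := by
        rw [Real.mul_rpow (le_max_right _ _) (by positivity), ← Real.rpow_mul hI,
          one_div_mul_cancel hp0.ne', Real.rpow_one]

theorem weighted (hp : 1 ≤ p) {τ : ℝ} (hτ : 0 < τ) (hS : ‖G.S τ‖ ≤ Real.exp (-1)) :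
    ∃ C : ℝ, 0 ≤ C ∧ ∀ t, 0 ≤ t → ∀ u, IsInput u →
      ‖G.Φ t u‖ ^ p ≤ C * ∫ s in (0:ℝ)..t, Real.exp (-((t - s) / τ)) * ‖u s‖ ^ p := by
  have hp0 : 0 < p := by linarith
  obtain ⟨K, hK0, hK⟩ := Φ_small G hp hτ.le
  set θ : ℝ := Real.exp (-1) with hθ
  have hθ0 : 0 < θ := Real.exp_pos _
  have hθ1 : θ < 1 := by
    rw [hθ]
    exact (Real.exp_lt_exp.2 (by norm_num : (-1:ℝ) < 0)).trans_eq Real.exp_zero
  have h1θ : 0 < 1 - θ := by linarith
  set c : ℝ := (1 - θ) ^ (1 - p) with hc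
  have hc1 : 1 ≤ c := by
    rw [hc]
    exact Real.one_le_rpow_of_pos_of_le_one_of_nonpos h1θ (by linarith) (by linarith)
  set C : ℝ := c * K * Real.exp 1 with hC
  have hC0 : 0 ≤ C := by positivity
  refine ⟨C, hC0, ?_⟩
  -- comparison of the weights on short intervals
  have hshort : ∀ t a : ℝ, 0 ≤ a → a ≤ t → t ≤ a + τ → ∀ u : ℝ → U, IsInput u →
      (∫ s in a..t, ‖u s‖ ^ p) ≤ Real.exp 1 * ∫ s in a..t, Real.exp (-((t - s) / τ)) * ‖u s‖ ^ p := by
    intro t a ha hat hta u hu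
    rw [← intervalIntegral.integral_const_mul]
    apply intervalIntegral.integral_mono_on hat
    · have := hu.integrable hp0.le (K := fun _ => (1:ℝ)) (by fun_prop) ha (ha.trans hat)
      simpa using this
    · exact (hu.integrable hp0.le (K := fun s => Real.exp (-((t - s) / τ))) (by fun_prop) ha
        (ha.trans hat)).const_mul _
    · intro s hs
      rw [← mul_assoc, ← Real.exp_add]
      have h1 : 1 ≤ Real.exp (1 + -((t - s) / τ)) := by
        apply Real.one_le_exp
        have : (t - s) / τ ≤ 1 := by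
          rw [div_le_one hτ]
          linarith [hs.1]
        linarith
      have h2 : 0 ≤ ‖u s‖ ^ p := by positivity
      nlinarith
  have main : ∀ n : ℕ, ∀ t, 0 ≤ t → t ≤ n * τ → ∀ u, IsInput u →
      ‖G.Φ t u‖ ^ p ≤ C * ∫ s in (0:ℝ)..t, Real.exp (-((t - s) / τ)) * ‖u s‖ ^ p := by
    intro n
    induction n with
    | zero =>
      intro t ht htn u hu
      have h0 : t = 0 := le_antisymm (by simpa using htn) ht
      subst h0
      have h1 := hK 0 le_rfl hτ.le u hu
      simpa using h1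
    | succ n ih =>
      intro t ht htn u hu
      rcases le_total t τ with htτ | htτ
      · refine (hK t ht htτ u hu).trans ?_
        have h1 := hshort t 0 le_rfl ht (by linarith) u hu
        have hI : 0 ≤ ∫ s in (0:ℝ)..t, Real.exp (-((t - s) / τ)) * ‖u s‖ ^ p :=
          intervalIntegral.integral_nonneg ht fun s _ => by positivity
        calc K * ∫ s in (0:ℝ)..t, ‖u s‖ ^ p
            ≤ K * (Real.exp 1 * ∫ s in (0:ℝ)..t, Real.exp (-((t - s) / τ)) * ‖u s‖ ^ p) := by gcongr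
          _ ≤ c * (K * (Real.exp 1 * ∫ s in (0:ℝ)..t, Real.exp (-((t - s) / τ)) * ‖u s‖ ^ p)) :=
              le_mul_of_one_le_left (by positivity) hc1
          _ = _ := by rw [hC]; ring
      · set t' : ℝ := t - τ with ht'
        have ht0 : 0 ≤ t' := by linarith
        have htn' : t' ≤ n * τ := by
          push_cast at htn
          linarith
        have e : τ + t' = t := by rw [ht']; ring
        have h1 := G.Φ_cat τ t' u (fun s => u (s + t')) hτ.le ht0 hu (hu.shift ht0)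
        rw [cat_shift, e] at h1
        have h2 := ih t' ht0 htn' u hu
        have h3 := hK τ hτ.le le_rfl _ (hu.shift ht0)
        have h4 : ∫ s in (0:ℝ)..τ, ‖u (s + t')‖ ^ p = ∫ s in t'..t, ‖u s‖ ^ p := by
          rw [intervalIntegral.integral_comp_add_right (f := fun s => ‖u s‖ ^ p) t', zero_add, e]
        rw [h4] at h3
        have h5 : ‖G.Φ t u‖ ≤ θ * ‖G.Φ t' u‖ + ‖G.Φ τ (fun s => u (s + t'))‖ := by
          rw [h1]
          refine (norm_add_le _ _).trans ?_
          have := (G.S τ).le_of_opNorm_le hS (G.Φ t' u)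
          linarith
        have h6 := conv hp hθ0 hθ1 (norm_nonneg (G.Φ t' u)) (norm_nonneg (G.Φ τ (fun s => u (s + t'))))
        have h7 : ‖G.Φ t u‖ ^ p ≤ θ * ‖G.Φ t' u‖ ^ p + c * ‖G.Φ τ (fun s => u (s + t'))‖ ^ p :=
          (Real.rpow_le_rpow (norm_nonneg _) h5 hp0.le).trans h6
        have h8 := hshort t t' ht0 (by linarith) (by linarith) u hu
        have h9 : θ * ∫ s in (0:ℝ)..t', Real.exp (-((t' - s) / τ)) * ‖u s‖ ^ p =
            ∫ s in (0:ℝ)..t', Real.exp (-((t - s) / τ)) * ‖u s‖ ^ p := by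
          rw [← intervalIntegral.integral_const_mul]
          apply intervalIntegral.integral_congr
          intro s _
          simp only
          rw [hθ, ← mul_assoc, ← Real.exp_add]
          congr 2
          rw [ht']
          field_simp
          ring
        have h10 := intervalIntegral.integral_add_adjacent_intervals
          (hu.integrable hp0.le (K := fun s => Real.exp (-((t - s) / τ))) (by fun_prop) le_rfl ht0)
          (hu.integrable hp0.le (K := fun s => Real.exp (-((t - s) / τ))) (by fun_prop) ht0 ht)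
        calc ‖G.Φ t u‖ ^ p ≤ θ * ‖G.Φ t' u‖ ^ p + c * ‖G.Φ τ (fun s => u (s + t'))‖ ^ p := h7
          _ ≤ θ * (C * ∫ s in (0:ℝ)..t', Real.exp (-((t' - s) / τ)) * ‖u s‖ ^ p) +
              c * (K * ∫ s in t'..t, ‖u s‖ ^ p) := by gcongr
          _ ≤ θ * (C * ∫ s in (0:ℝ)..t', Real.exp (-((t' - s) / τ)) * ‖u s‖ ^ p) +
              c * (K * (Real.exp 1 * ∫ s in t'..t, Real.exp (-((t - s) / τ)) * ‖u s‖ ^ p)) := by
              gcongr
          _ = C * ((θ * ∫ s in (0:ℝ)..t', Real.exp (-((t' - s) / τ)) * ‖u s‖ ^ p) +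
              ∫ s in t'..t, Real.exp (-((t - s) / τ)) * ‖u s‖ ^ p) := by rw [hC]; ring
          _ = _ := by rw [h9, h10]
  intro t ht u hu
  obtain ⟨n, hn⟩ := exists_nat_ge (t / τ)
  exact main n t ht (by rwa [div_le_iff₀ hτ] at hn) u hu

end Y912.IS
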