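import Pool.Agent.Y912.IS.Main

set_option autoImplicit false
set_option linter.unusedSectionVars false

namespace Y912.IS

open MeasureTheory Set Filter Topology

variable {X U : Type*} [NormedAddCommGroup X] [NormedSpace ℝ X] [NormedAddCommGroup U]
  [NormedSpace ℝ U] {p : ℝ} (G : ControlSystem p X U)

/-- times and inputs -/
structure Idx (U : Type*) [NormedAddCommGroup U] where
  t : ℝ
  v : ℝ → U
  ht : 0 ≤ t
  hv : IsInput v

instance : Nonempty (Idx U) := ⟨⟨0, fun _ => 0, le_rfl, isInput_zero⟩⟩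

noncomputable def val (γ D : ℝ) (x : X) (i : Idx U) : ℝ :=
  Real.exp (γ * i.t) * ‖G.S i.t x + G.Φ i.t i.v‖ ^ p -
    D * ∫ s in (0:ℝ)..i.t, Real.exp (γ * s) * ‖i.v s‖ ^ p

noncomputable def V (γ D : ℝ) (x : X) : ℝ := ⨆ i : Idx U, val G γ D x i

/-- the standing hypotheses, with the constants -/
structure Hyp (γ D B : ℝ) : Prop where
  hp : 1 ≤ p
  hD : 0 ≤ D
  hγ : 0 ≤ γ
  hB : 0 ≤ B
  le : ∀ (x : X) (i : Idx U), val G γ D x i ≤ B * ‖x‖ ^ p

variable {G} {γ D B : ℝ}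

theorem Hyp.bdd (H : Hyp G γ D B) (x : X) : BddAbove (range (val G γ D x)) :=
  ⟨B * ‖x‖ ^ p, by rintro _ ⟨i, rfl⟩; exact H.le x i⟩

theorem Hyp.V_le (H : Hyp G γ D B) (x : X) : V G γ D x ≤ B * ‖x‖ ^ p := ciSup_le (H.le x)

theorem Hyp.le_V (H : Hyp G γ D B) (x : X) : ‖x‖ ^ p ≤ V G γ D x := by
  have h1 := le_ciSup (H.bdd x) ⟨0, fun _ => (0 : U), le_rfl, isInput_zero⟩
  refine le_trans (le_of_eq ?_) h1
  have h2 : G.Φ 0 (fun _ => (0 : U)) = 0 := Φ_zero_input G (by linarith [H.hp]) le_rfl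
  simp only [val, h2, G.S_zero, ContinuousLinearMap.id_apply, add_zero, mul_zero, Real.exp_zero,
    one_mul, intervalIntegral.integral_same, sub_zero]

theorem Hyp.V_nonneg (H : Hyp G γ D B) (x : X) : 0 ≤ V G γ D x :=
  (by positivity : (0:ℝ) ≤ ‖x‖ ^ p).trans (H.le_V x)

theorem Hyp.V_convex (H : Hyp G γ D B) (x y : X) {a b : ℝ} (ha : 0 ≤ a) (hb : 0 ≤ b)
    (hab : a + b = 1) : V G γ D (a • x + b • y) ≤ a * V G γ D x + b * V G γ D y := by
  have hp0 : 0 < p := by linarith [H.hp]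
  apply ciSup_le
  intro i
  have hx := le_ciSup (H.bdd x) i
  have hy := le_ciSup (H.bdd y) i
  set P := G.S i.t x + G.Φ i.t i.v
  set Q := G.S i.t y + G.Φ i.t i.v
  have e : G.S i.t (a • x + b • y) + G.Φ i.t i.v = a • P + b • Q := by
    have h1 : G.Φ i.t i.v = a • G.Φ i.t i.v + b • G.Φ i.t i.v := by
      rw [← add_smul, hab, one_smul]
    have h2 : a • P + b • Q = (a • G.S i.t x + b • G.S i.t y) +
        (a • G.Φ i.t i.v + b • G.Φ i.t i.v) := by
      simp only [P, Q, smul_add]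
      abel
    rw [h2, ← h1, map_add, map_smul, map_smul]
  have h3 : ‖a • P + b • Q‖ ^ p ≤ a * ‖P‖ ^ p + b * ‖Q‖ ^ p := by
    have h4 : ‖a • P + b • Q‖ ≤ a * ‖P‖ + b * ‖Q‖ := by
      refine (norm_add_le _ _).trans (le_of_eq ?_)
      rw [norm_smul, norm_smul, Real.norm_of_nonneg ha, Real.norm_of_nonneg hb]
    have h5 := (convexOn_rpow H.hp).2 (x := ‖P‖) (y := ‖Q‖) (norm_nonneg P) (norm_nonneg Q)
      ha hb hab
    simp only [smul_eq_mul] at h5
    exact (Real.rpow_le_rpow (norm_nonneg _) h4 hp0.le).trans h5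
  have h6 := mul_le_mul_of_nonneg_left h3 (Real.exp_pos (γ * i.t)).le
  have h7 : val G γ D (a • x + b • y) i ≤ a * val G γ D x i + b * val G γ D y i := by
    simp only [val]
    rw [e]
    have h8 : b = 1 - a := by linarith
    subst h8
    linarith
  refine h7.trans ?_
  exact add_le_add (mul_le_mul_of_nonneg_left hx ha) (mul_le_mul_of_nonneg_left hy hb)

theorem Hyp.V_smul_le (H : Hyp G γ D B) (x : X) {c : ℝ} (hc : c ≠ 0) :
    V G γ D (c • x) ≤ |c| ^ p * V G γ D x := by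
  have hp0 : 0 < p := by linarith [H.hp]
  apply ciSup_le
  intro i
  have hi := i.hv.smul c⁻¹
  have h1 := le_ciSup (H.bdd x) ⟨i.t, fun s => c⁻¹ • i.v s, i.ht, hi⟩
  change val G γ D x _ ≤ V G γ D x at h1
  have hc0 : 0 < |c| := abs_pos.2 hc
  have h2 := mul_le_mul_of_nonneg_left h1 (by positivity : 0 ≤ |c| ^ p)
  refine le_trans (le_of_eq ?_) h2
  simp only [val]
  have e1 : G.S i.t (c • x) + G.Φ i.t i.v = c • (G.S i.t x + G.Φ i.t (fun s => c⁻¹ • i.v s)) := by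
    rw [G.Φ_smul i.t c⁻¹ i.v i.ht i.hv, map_smul, smul_add, smul_smul, mul_inv_cancel₀ hc, one_smul]
  have e2 : ∀ s, ‖c⁻¹ • i.v s‖ ^ p = (|c| ^ p)⁻¹ * ‖i.v s‖ ^ p := by
    intro s
    rw [norm_smul, norm_inv, Real.norm_eq_abs, Real.mul_rpow (by positivity) (norm_nonneg _),
      Real.inv_rpow hc0.le]
  have e3 : ∫ s in (0:ℝ)..i.t, Real.exp (γ * s) * ‖c⁻¹ • i.v s‖ ^ p =
      (|c| ^ p)⁻¹ * ∫ s in (0:ℝ)..i.t, Real.exp (γ * s) * ‖i.v s‖ ^ p := by
    rw [← intervalIntegral.integral_const_mul]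
    apply intervalIntegral.integral_congr
    intro s _
    simp only
    rw [e2]
    ring
  have hcp : |c| ^ p ≠ 0 := (Real.rpow_pos_of_pos hc0 p).ne'
  rw [e1, e3, norm_smul, Real.norm_eq_abs, Real.mul_rpow hc0.le (norm_nonneg _)]
  field_simp

theorem Hyp.V_smul (H : Hyp G γ D B) (x : X) (c : ℝ) :
    V G γ D (c • x) = |c| ^ p * V G γ D x := by
  have hp0 : 0 < p := by linarith [H.hp]
  rcases eq_or_ne c 0 with hc | hc
  · subst hc
    rw [zero_smul, abs_zero, Real.zero_rpow hp0.ne', zero_mul]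
    apply le_antisymm _ (H.V_nonneg 0)
    refine (H.V_le 0).trans ?_
    rw [norm_zero, Real.zero_rpow hp0.ne', mul_zero]
  · apply le_antisymm (H.V_smul_le x hc)
    have h1 := H.V_smul_le (c • x) (inv_ne_zero hc)
    rw [smul_smul, inv_mul_cancel₀ hc, one_smul, abs_inv, Real.inv_rpow (abs_nonneg c)] at h1
    have hc0 : 0 < |c| ^ p := Real.rpow_pos_of_pos (abs_pos.2 hc) p
    rwa [← div_eq_inv_mul, le_div_iff₀ hc0, mul_comm] at h1

theorem Hyp.dissip (H : Hyp G γ D B) (x : X) {u : ℝ → U} (hu : IsInput u) {h : ℝ} (hh : 0 ≤ h) :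
    V G γ D (G.S h x + G.Φ h u) ≤ Real.exp (-(γ * h)) * V G γ D x +
      D * ∫ s in (0:ℝ)..h, Real.exp (-(γ * (h - s))) * ‖u s‖ ^ p := by
  have hp0 : 0 < p := by linarith [H.hp]
  apply ciSup_le
  rintro ⟨t, v, ht, hv⟩
  simp only [val]
  have e1 : G.S t (G.S h x + G.Φ h u) + G.Φ t v = G.S (t + h) x + G.Φ (t + h) (cat h u v) := by
    rw [G.Φ_cat t h u v ht hh hu hv, G.S_add t h ht hh, map_add, ContinuousLinearMap.comp_apply]
    abel
  rw [e1]
  have h1 := int_cat (K := fun s => Real.exp (γ * s)) (by fun_prop) hu hv hp0.le hh ht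
  have h2 := le_ciSup (H.bdd x) ⟨t + h, cat h u v, by linarith, hu.cat hv hh⟩
  simp only [val] at h2
  change _ ≤ V G γ D x at h2
  have h3 : ∫ s in (0:ℝ)..t, Real.exp (γ * (s + h)) * ‖v s‖ ^ p =
      Real.exp (γ * h) * ∫ s in (0:ℝ)..t, Real.exp (γ * s) * ‖v s‖ ^ p := by
    rw [← intervalIntegral.integral_const_mul]
    apply intervalIntegral.integral_congr
    intro s _
    simp only
    rw [mul_add, Real.exp_add]; ring
  have h4 : ∫ s in (0:ℝ)..h, Real.exp (-(γ * (h - s))) * ‖u s‖ ^ p =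
      Real.exp (-(γ * h)) * ∫ s in (0:ℝ)..h, Real.exp (γ * s) * ‖u s‖ ^ p := by
    rw [← intervalIntegral.integral_const_mul]
    apply intervalIntegral.integral_congr
    intro s _
    simp only
    rw [← mul_assoc, ← Real.exp_add]
    congr 2
    ring
  rw [h1, h3, mul_add, Real.exp_add] at h2
  rw [h4]
  set W := V G γ D x
  set A := ‖G.S (t + h) x + G.Φ (t + h) (cat h u v)‖ ^ p
  set I := ∫ s in (0:ℝ)..t, Real.exp (γ * s) * ‖v s‖ ^ p
  set J := ∫ s in (0:ℝ)..h, Real.exp (γ * s) * ‖u s‖ ^ p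
  have h8 : Real.exp (-(γ * h)) * Real.exp (γ * h) = 1 := by rw [← Real.exp_add]; simp
  have h9 : 0 < Real.exp (-(γ * h)) := Real.exp_pos _
  calc Real.exp (γ * t) * A - D * I = Real.exp (-(γ * h)) *
        (Real.exp (γ * t) * Real.exp (γ * h) * A - D * (J + Real.exp (γ * h) * I)) +
          D * (Real.exp (-(γ * h)) * J) := by
        linear_combination (-(Real.exp (γ * t) * A - D * I)) * h8
    _ ≤ Real.exp (-(γ * h)) * W + D * (Real.exp (-(γ * h)) * J) := by gcongr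

/-- the norm -/
noncomputable def N (G : ControlSystem p X U) (γ D : ℝ) (x : X) : ℝ := (V G γ D x) ^ (1 / p)

theorem Hyp.N_pow (H : Hyp G γ D B) (x : X) : N G γ D x ^ p = V G γ D x := by
  have hp0 : 0 < p := by linarith [H.hp]
  rw [N, ← Real.rpow_mul (H.V_nonneg x), one_div_mul_cancel hp0.ne', Real.rpow_one]

theorem Hyp.N_nonneg (H : Hyp G γ D B) (x : X) : 0 ≤ N G γ D x :=
  Real.rpow_nonneg (H.V_nonneg x) _

theorem Hyp.le_N (H : Hyp G γ D B) (x : X) : ‖x‖ ≤ N G γ D x := by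
  have hp0 : 0 < p := by linarith [H.hp]
  have h1 := H.le_V x
  rw [← H.N_pow x] at h1
  exact (Real.rpow_le_rpow_iff (norm_nonneg _) (H.N_nonneg x) hp0).1 h1

theorem Hyp.N_le (H : Hyp G γ D B) (x : X) : N G γ D x ≤ B ^ (1 / p) * ‖x‖ := by
  have hp0 : 0 < p := by linarith [H.hp]
  have h1 := Real.rpow_le_rpow (H.V_nonneg x) (H.V_le x) (by positivity : 0 ≤ 1 / p)
  rw [Real.mul_rpow H.hB (by positivity), ← Real.rpow_mul (norm_nonneg _),
    mul_one_div_cancel hp0.ne', Real.rpow_one] at h1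
  exact h1

theorem Hyp.N_smul (H : Hyp G γ D B) (c : ℝ) (x : X) : N G γ D (c • x) = |c| * N G γ D x := by
  have hp0 : 0 < p := by linarith [H.hp]
  rw [N, H.V_smul, Real.mul_rpow (by positivity) (H.V_nonneg x), ← Real.rpow_mul (abs_nonneg _),
    mul_one_div_cancel hp0.ne', Real.rpow_one, N]

theorem Hyp.N_add (H : Hyp G γ D B) (x y : X) : N G γ D (x + y) ≤ N G γ D x + N G γ D y := by
  have hp0 : 0 < p := by linarith [H.hp]
  have hzero : ∀ z : X, N G γ D z = 0 → z = 0 := fun z hz => by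
    have := H.le_N z
    rw [hz] at this
    exact norm_le_zero_iff.1 this
  rcases (H.N_nonneg x).eq_or_lt with h0 | hx
  · rw [hzero x h0.symm, zero_add]
    linarith [H.N_nonneg (0 : X)]
  rcases (H.N_nonneg y).eq_or_lt with h0 | hy
  · rw [hzero y h0.symm, add_zero]
    linarith [H.N_nonneg (0 : X)]
  set a := N G γ D x with ha
  set b := N G γ D y with hb
  have hab : 0 < a + b := by positivity
  have h1 := H.V_convex (a⁻¹ • x) (b⁻¹ • y) (a := a / (a + b)) (b := b / (a + b)) (by positivity)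
    (by positivity) (by field_simp)
  have e1 : V G γ D (a⁻¹ • x) = 1 := by
    rw [H.V_smul, ← H.N_pow x, ← ha, abs_of_pos (by positivity), ← Real.mul_rpow (by positivity) hx.le,
      inv_mul_cancel₀ hx.ne', Real.one_rpow]
  have e2 : V G γ D (b⁻¹ • y) = 1 := by
    rw [H.V_smul, ← H.N_pow y, ← hb, abs_of_pos (by positivity), ← Real.mul_rpow (by positivity) hy.le,
      inv_mul_cancel₀ hy.ne', Real.one_rpow]
  have e3 : (a / (a + b)) • (a⁻¹ • x) + (b / (a + b)) • (b⁻¹ • y) = (a + b)⁻¹ • (x + y) := by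
    rw [smul_smul, smul_smul, smul_add]
    congr 2 <;> field_simp
  rw [e1, e2, e3, mul_one, mul_one, H.V_smul, ← H.N_pow (x + y), abs_of_pos (by positivity),
    ← Real.mul_rpow (by positivity) (H.N_nonneg _)] at h1
  have h2 : a / (a + b) + b / (a + b) = 1 := by field_simp
  rw [h2] at h1
  have h3 : (a + b)⁻¹ * N G γ D (x + y) ≤ 1 := by
    by_contra hcon
    rw [not_le] at hcon
    have := Real.one_lt_rpow hcon hp0
    linarith
  rwa [inv_mul_le_iff₀ hab, mul_one] at h3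

/-- construction of the constants -/
theorem exists_hyp (G : ControlSystem p X U) (hp : 1 ≤ p) {M ω : ℝ} (hω : 0 < ω)
    (hS : ∀ t, 0 ≤ t → ‖G.S t‖ ≤ M * Real.exp (-(ω * t))) :
    ∃ γ D B : ℝ, 0 < γ ∧ Hyp G γ D B := by
  have hp0 : 0 < p := by linarith
  set M' : ℝ := max M 1 with hM'
  have hM1 : 1 ≤ M' := le_max_right _ _
  have hS' : ∀ t, 0 ≤ t → ‖G.S t‖ ≤ M' * Real.exp (-(ω * t)) := fun t ht =>
    (hS t ht).trans (mul_le_mul_of_nonneg_right (le_max_left _ _) (Real.exp_pos _).le)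
  have hlog : 0 ≤ Real.log M' := Real.log_nonneg hM1
  set τ : ℝ := (1 + Real.log M') / ω with hτ
  have hτ0 : 0 < τ := by positivity
  have hSτ : ‖G.S τ‖ ≤ Real.exp (-1) := by
    refine (hS' τ hτ0.le).trans (le_of_eq ?_)
    have h1 : ω * τ = 1 + Real.log M' := by rw [hτ]; field_simp
    rw [h1, show -(1 + Real.log M') = -1 - Real.log M' by ring, Real.exp_sub,
      Real.exp_log (by linarith)]
    field_simp
  obtain ⟨C, hC0, hC⟩ := weighted G hp hτ0 hSτ
  have hγω : 1 / τ ≤ ω := by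
    rw [hτ, one_div_div, div_le_iff₀ (by positivity)]
    nlinarith
  refine ⟨1 / τ, 2 ^ (p - 1) * C, 2 ^ (p - 1) * M' ^ p, by positivity, hp, by positivity,
    by positivity, by positivity, ?_⟩
  rintro x ⟨t, v, ht, hv⟩
  simp only [val]
  set I := ∫ s in (0:ℝ)..t, Real.exp (1 / τ * s) * ‖v s‖ ^ p with hI
  have hI0 : 0 ≤ I := intervalIntegral.integral_nonneg ht fun s _ => by positivity
  have h1 : ‖G.S t x + G.Φ t v‖ ^ p ≤ 2 ^ (p - 1) * ‖G.S t x‖ ^ p + 2 ^ (p - 1) * ‖G.Φ t v‖ ^ p := by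
    have h2 := conv hp (θ := 1 / 2) (by norm_num) (by norm_num)
      (a := 2 * ‖G.S t x‖) (b := ‖G.Φ t v‖) (by positivity) (norm_nonneg _)
    have e1 : (1 / 2 : ℝ) * (2 * ‖G.S t x‖) + ‖G.Φ t v‖ = ‖G.S t x‖ + ‖G.Φ t v‖ := by ring
    have e2 : (1 / 2 : ℝ) * (2 * ‖G.S t x‖) ^ p = 2 ^ (p - 1) * ‖G.S t x‖ ^ p := by
      rw [Real.mul_rpow (by norm_num) (norm_nonneg _), Real.rpow_sub (by norm_num), Real.rpow_one]
      ring
    have e3 : (1 - 1 / 2 : ℝ) ^ (1 - p) = 2 ^ (p - 1) := by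
      rw [show (1 - 1 / 2 : ℝ) = 2⁻¹ by norm_num, Real.inv_rpow (by norm_num),
        ← Real.rpow_neg (by norm_num)]
      congr 1
      ring
    rw [e1, e2, e3] at h2
    exact (Real.rpow_le_rpow (norm_nonneg _) (norm_add_le _ _) hp0.le).trans h2
  have h2 : Real.exp (1 / τ * t) * ‖G.S t x‖ ^ p ≤ M' ^ p * ‖x‖ ^ p := by
    have h3 : ‖G.S t x‖ ≤ M' * Real.exp (-(ω * t)) * ‖x‖ := (G.S t).le_of_opNorm_le (hS' t ht) x
    have h4 : ‖G.S t x‖ ^ p ≤ M' ^ p * Real.exp (-(ω * t) * p) * ‖x‖ ^ p := by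
      refine (Real.rpow_le_rpow (norm_nonneg _) h3 hp0.le).trans (le_of_eq ?_)
      rw [Real.mul_rpow (by positivity) (norm_nonneg _), Real.mul_rpow (by positivity) (by positivity),
        ← Real.exp_mul]
    have h5 : Real.exp (1 / τ * t) * Real.exp (-(ω * t) * p) ≤ 1 := by
      rw [← Real.exp_add, Real.exp_le_one_iff]
      have h6 : 1 / τ * t ≤ ω * t := mul_le_mul_of_nonneg_right hγω ht
      have h7 : ω * t ≤ ω * t * p := le_mul_of_one_le_right (by positivity) hp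
      linarith
    calc Real.exp (1 / τ * t) * ‖G.S t x‖ ^ p
        ≤ Real.exp (1 / τ * t) * (M' ^ p * Real.exp (-(ω * t) * p) * ‖x‖ ^ p) := by gcongr
      _ = (Real.exp (1 / τ * t) * Real.exp (-(ω * t) * p)) * (M' ^ p * ‖x‖ ^ p) := by ring
      _ ≤ 1 * (M' ^ p * ‖x‖ ^ p) := by gcongr
      _ = _ := one_mul _
  have h3 : Real.exp (1 / τ * t) * ‖G.Φ t v‖ ^ p ≤ C * I := by
    have h4 := mul_le_mul_of_nonneg_left (hC t ht v hv) (Real.exp_pos (1 / τ * t)).le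
    refine h4.trans (le_of_eq ?_)
    rw [mul_left_comm, ← intervalIntegral.integral_const_mul, hI]
    congr 1
    apply intervalIntegral.integral_congr
    intro s _
    simp only
    rw [← mul_assoc, ← Real.exp_add]
    congr 2
    field_simp
    ring
  have h2p : (0:ℝ) < 2 ^ (p - 1) := by positivity
  calc Real.exp (1 / τ * t) * ‖G.S t x + G.Φ t v‖ ^ p - 2 ^ (p - 1) * C * I
      ≤ Real.exp (1 / τ * t) * (2 ^ (p - 1) * ‖G.S t x‖ ^ p + 2 ^ (p - 1) * ‖G.Φ t v‖ ^ p) -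
        2 ^ (p - 1) * C * I := by gcongr
    _ = 2 ^ (p - 1) * (Real.exp (1 / τ * t) * ‖G.S t x‖ ^ p) +
        2 ^ (p - 1) * (Real.exp (1 / τ * t) * ‖G.Φ t v‖ ^ p) - 2 ^ (p - 1) * C * I := by ring
    _ ≤ 2 ^ (p - 1) * (M' ^ p * ‖x‖ ^ p) + 2 ^ (p - 1) * (C * I) - 2 ^ (p - 1) * C * I := by gcongr
    _ = _ := by ring

end Y912.IS
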